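import Pool.Agent.H8.Msel

/-! Every Boolean algebra generated by a chain has the monotone selection property. -/

namespace Pool.Agent.Results.MP_9a43b6_co.Select

/-- the nonempty sublattices of `T` -/
def Sub (T : Type*) [Lattice T] : Type _ := {S : Sublattice T // (S : Set T).Nonempty}

/-- the relation `S ≤ S'` of the problem -/
def Rel {T : Type*} [Lattice T] (S S' : Sub T) : Prop :=
  ∀ x ∈ S.1, ∀ x' ∈ S'.1, x ⊓ x' ∈ S.1 ∧ x ⊔ x' ∈ S'.1

/-- the monotone selection property -/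
def MonoSel (T : Type*) [Lattice T] : Prop :=
  ∃ φ : Sub T → T, (∀ S S', Rel S S' → φ S ≤ φ S') ∧ ∀ S, φ S ∈ S.1

theorem result (T : Type*) [BooleanAlgebra T] (C : Set T) (hC : IsChain (· ≤ ·) C)
    (hg : BooleanSubalgebra.closure C = ⊤) : MonoSel T := by
  obtain ⟨φ, h1, h2⟩ := Pool.Agent.H8.Msel.main hC hg
  exact ⟨fun S => φ ⟨S.1, S.2⟩, fun S S' h => h2 _ _ h, fun S => h1 ⟨S.1, S.2⟩⟩

end Pool.Agent.Results.MP_9a43b6_co.Select
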